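import Pool.Agent.R462.HS.Mix
import Pool.Agent.Y407.LS2.Eft
import Pool.Agent.Y195.LS2.Evol
set_option autoImplicit false

/-! # Ellipsoids -/

open MeasureTheory Set Filter
open scoped ENNReal Topology

namespace Pool.Agent.R462.HS

open Pool.Agent.TH280.LS Pool.Agent.Y507.LS2

lemma ell_abs {m : ℕ} {c l y : Fin m → ℝ} (hl : ∀ i, 0 < l i) (hy : y ∈ ell c l) (i : Fin m) :
    |y i - c i| ≤ l i := by
  have hy' : ∑ i, ((y i - c i) / l i) ^ 2 ≤ 1 := hy
  have h1 : ((y i - c i) / l i) ^ 2 ≤ 1 :=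
    (Finset.single_le_sum (f := fun i => ((y i - c i) / l i) ^ 2)
      (fun j _ => sq_nonneg _) (Finset.mem_univ i)).trans hy'
  have h2 : |(y i - c i) / l i| ≤ 1 := by
    rw [← sq_abs] at h1
    exact (sq_le_one_iff₀ (abs_nonneg _)).1 h1
  rw [abs_div, abs_of_pos (hl i), div_le_one (hl i)] at h2
  exact h2

/-- **Ellipsoids.** -/
theorem ell_dom (hB : S_BALL) (hV : S_EVOL) {m : ℕ} (hm : 0 < m) : ∃ C : ℝ, 0 < C ∧
    ∀ (a : ℝ) (c l : Fin m → ℝ), 0 ≤ a → a ≤ ((m : ℝ) + 1) / (2 * m) → (∀ i, 0 < l i) →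
    ∀ η : Fin m → ℝ,
    ‖ftm m (fun y => (((ell c l).indicator (fun _ => (1 : ℝ)) y : ℝ) : ℂ)) η‖ ≤
      C * ∫ y, (ell c l).indicator (fun _ => (1 : ℝ)) y *
        ∏ i, (1 + |η i * (y i - c i)|) ^ (-a) := by
  obtain ⟨CB, hCB, hb⟩ := hB m hm
  obtain ⟨CV, hCV, hv⟩ := hV m hm
  have hm0 : (0 : ℝ) < m := by exact_mod_cast hm
  refine ⟨CB * CV, mul_pos hCB hCV, ?_⟩
  intro a c l ha ham hl η
  have hp : 0 < ∏ i, l i := Finset.prod_pos fun i _ => hl i
  set ζ : Fin m → ℝ := fun j => l j * η j with hζ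
  have hnr : 0 ≤ nr ζ := Real.sqrt_nonneg _
  have h1 := hb 1 ζ zero_le_one
  rw [one_pow, mul_one, one_mul] at h1
  have hF : ftm m (fun y => (((ell c l).indicator (fun _ => (1 : ℝ)) y : ℝ) : ℂ)) η =
      ∫ y in ell c l, e (-(∑ j, y j * η j)) := by
    rw [← integral_indicator (Pool.Agent.Y407.LS2.measurable_ell c l)]
    unfold ftm
    refine integral_congr_ae (Eventually.of_forall fun y => ?_)
    simp only
    by_cases hy : y ∈ ell c l
    · rw [indicator_of_mem hy, indicator_of_mem hy]; simp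
    · rw [indicator_of_notMem hy, indicator_of_notMem hy]; simp
  obtain ⟨hv1, hv2⟩ := hv c l hl
  have hvt : volume (ell c l) ≠ ⊤ := ne_top_of_le_ne_top ENNReal.ofReal_ne_top hv2
  have hv3 : ∏ i, l i ≤ CV * volume.real (ell c l) := by
    have h2 := ENNReal.toReal_mono (ENNReal.mul_ne_top ENNReal.ofReal_ne_top hvt) hv1
    rw [ENNReal.toReal_ofReal hp.le, ENNReal.toReal_mul, ENNReal.toReal_ofReal hCV.le] at h2
    exact h2
  set X : ℝ := (1 + nr ζ) ^ (-(((m : ℝ) + 1) / 2)) with hX
  have hX0 : 0 < X := Real.rpow_pos_of_pos (by linarith) _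
  -- lower bound of the right side
  have hlow : volume.real (ell c l) * X ≤ ∫ y, (ell c l).indicator (fun _ => (1 : ℝ)) y *
        ∏ i, (1 + |η i * (y i - c i)|) ^ (-a) := by
    have h2 : volume.real (ell c l) * X = ∫ y, (ell c l).indicator (fun _ => X) y := by
      rw [integral_indicator (Pool.Agent.Y407.LS2.measurable_ell c l), setIntegral_const,
        smul_eq_mul]
    rw [h2]
    have hint : Integrable (fun y => (ell c l).indicator (fun _ => (1 : ℝ)) y *
        ∏ i, (1 + |η i * (y i - c i)|) ^ (-a)) := by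
      have h3 : Integrable (fun y => (ell c l).indicator (fun _ => (1 : ℂ)) y) := by
        rw [integrable_indicator_iff (Pool.Agent.Y407.LS2.measurable_ell c l)]
        exact integrableOn_const hvt
      have h4 := int_gK ha η c h3
      refine h4.congr (Eventually.of_forall fun y => ?_)
      simp only
      rw [kr_eq]
      congr 1
      by_cases hy : y ∈ ell c l
      · rw [indicator_of_mem hy, indicator_of_mem hy, norm_one]
      · rw [indicator_of_notMem hy, indicator_of_notMem hy, norm_zero]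
    refine integral_mono_of_nonneg (Eventually.of_forall fun y =>
      indicator_nonneg (fun _ _ => hX0.le) y) hint (Eventually.of_forall fun y => ?_)
    simp only
    by_cases hy : y ∈ ell c l
    · rw [indicator_of_mem hy, indicator_of_mem hy, one_mul, hX]
      have h5 : ∀ i, (1 + nr ζ) ^ (-a) ≤ (1 + |η i * (y i - c i)|) ^ (-a) := by
        intro i
        refine Real.rpow_le_rpow_of_nonpos (by positivity) ?_ (by linarith)
        have h6 : |η i * (y i - c i)| ≤ |ζ i| := by
          rw [abs_mul, hζ, abs_mul, abs_of_pos (hl i), mul_comm]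
          exact mul_le_mul_of_nonneg_right (ell_abs hl hy i) (abs_nonneg _)
        have h7 := Pool.Agent.Y407.LS2.abs_le_nr ζ i
        linarith
      have h8 : ((1 + nr ζ) ^ (-a)) ^ m ≤ ∏ i, (1 + |η i * (y i - c i)|) ^ (-a) := by
        have e0 : ((1 + nr ζ) ^ (-a)) ^ m = ∏ _i : Fin m, (1 + nr ζ) ^ (-a) := by simp
        rw [e0]
        exact Finset.prod_le_prod (fun i _ => by positivity) fun i _ => h5 i
      refine le_trans ?_ h8
      rw [← Real.rpow_natCast, ← Real.rpow_mul (by linarith)]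
      refine Real.rpow_le_rpow_of_exponent_le (by linarith) ?_
      have h9 : a * m ≤ ((m : ℝ) + 1) / 2 := by
        calc a * m ≤ ((m : ℝ) + 1) / (2 * m) * m := mul_le_mul_of_nonneg_right ham hm0.le
          _ = ((m : ℝ) + 1) / 2 := by field_simp
      linarith
    · rw [indicator_of_notMem hy, indicator_of_notMem hy, zero_mul]
  rw [hF, Pool.Agent.Y407.LS2.int_ell c l hl η, norm_mul, norm_mul, norm_e, one_mul,
    Complex.norm_real, Real.norm_eq_abs, abs_of_pos hp]
  calc (∏ i, l i) * ‖ftm m ({y : Fin m → ℝ | nr y ≤ 1}.indicator 1) ζ‖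
      ≤ (CV * volume.real (ell c l)) * (CB * X) :=
        mul_le_mul hv3 h1 (norm_nonneg _) (by positivity)
    _ = CB * CV * (volume.real (ell c l) * X) := by ring
    _ ≤ _ := mul_le_mul_of_nonneg_left hlow (by positivity)

end Pool.Agent.R462.HS
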