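import Pool.Agent.TH807.LS_CL
set_option autoImplicit false

/-! # A weighted Hardy inequality with product kernels -/

open MeasureTheory Set
open scoped ENNReal

namespace Pool.Agent.R462.HS

/-- the kernel on the line -/
noncomputable def kk (a t : ℝ) : ℝ := (1 + |t|) ^ (-a)

lemma kk_pos (a t : ℝ) : 0 < kk a t := by unfold kk; positivity

lemma measurable_kk (a : ℝ) : Measurable (kk a) := by
  unfold kk
  exact Measurable.pow_const (by fun_prop) _

lemma lsc {a : ℝ} (ha : a ≠ 0) (g : ℝ → ℝ≥0∞) :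
    ∫⁻ x, g (a * x) = ENNReal.ofReal |a⁻¹| * ∫⁻ x, g x := by
  have h := Real.map_volume_mul_left ha
  have h2 : ∫⁻ x, g x ∂(Measure.map (a * ·) volume) = ∫⁻ x, g (a * x) :=
    (Homeomorph.mulLeft₀ a ha).measurableEmbedding.lintegral_map g
  rw [← h2, h, lintegral_smul_measure]
  rfl

/-- the one dimensional integral -/
noncomputable def JJ (a β : ℝ) : ℝ≥0∞ := ∫⁻ t : ℝ, ENNReal.ofReal (kk a t * |t| ^ β)

lemma JJ_lt {a β : ℝ} (ha : 0 ≤ a) (hβ : -1 < β) (hab : β + 1 < a) : JJ a β < ⊤ := by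
  have hm : Measurable (fun t : ℝ => kk a t * |t| ^ β) :=
    (measurable_kk a).mul (Measurable.pow_const (by fun_prop) _)
  have h1 : IntegrableOn (fun t : ℝ => kk a t * |t| ^ β) (Ioc 0 1) := by
    have h0 : IntegrableOn (fun t : ℝ => t ^ β) (Ioc 0 1) := by
      have := intervalIntegral.intervalIntegrable_rpow' (a := 0) (b := 1) hβ
      rwa [intervalIntegrable_iff_integrableOn_Ioc_of_le zero_le_one] at this
    refine Integrable.mono' h0 hm.aestronglyMeasurable ?_
    refine (ae_restrict_iff' measurableSet_Ioc).2 (Filter.Eventually.of_forall fun t ht => ?_)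
    have ht0 : 0 < t := ht.1
    rw [Real.norm_eq_abs, abs_of_nonneg (mul_nonneg (kk_pos a t).le (by positivity)),
      abs_of_pos ht0]
    refine mul_le_of_le_one_left (by positivity) ?_
    unfold kk
    exact Real.rpow_le_one_of_one_le_of_nonpos (by have := abs_nonneg t; linarith) (by linarith)
  have h2 : IntegrableOn (fun t : ℝ => kk a t * |t| ^ β) (Ioi 1) := by
    have h0 : IntegrableOn (fun t : ℝ => t ^ (β - a)) (Ioi 1) :=
      integrableOn_Ioi_rpow_of_lt (by linarith) one_pos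
    refine Integrable.mono' h0 hm.aestronglyMeasurable ?_
    refine (ae_restrict_iff' measurableSet_Ioi).2 (Filter.Eventually.of_forall fun t ht => ?_)
    have ht1 : (1 : ℝ) < t := ht
    have ht0 : 0 < t := by linarith
    rw [Real.norm_eq_abs, abs_of_nonneg (mul_nonneg (kk_pos a t).le (by positivity)),
      abs_of_pos ht0, Real.rpow_sub ht0, div_eq_mul_inv, ← Real.rpow_neg ht0.le, mul_comm]
    refine mul_le_mul_of_nonneg_left ?_ (by positivity)
    unfold kk
    rw [abs_of_pos ht0]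
    exact Real.rpow_le_rpow_of_nonpos ht0 (by linarith) (by linarith)
  have h3 : IntegrableOn (fun t : ℝ => kk a t * |t| ^ β) (Ioi 0) := by
    have := h1.union h2
    rwa [Ioc_union_Ioi_eq_Ioi zero_le_one] at this
  have h4 : IntegrableOn (fun t : ℝ => kk a t * |t| ^ β) (Iio 0) := by
    have h5 : IntegrableOn (fun t : ℝ => kk a (-t) * |-t| ^ β) (Iio 0) := by
      have h6 := (MeasureTheory.IntegrableOn.comp_neg_Iio (c := (0 : ℝ))
        (f := fun t : ℝ => kk a t * |t| ^ β) (by simpa using h3))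
      exact h6
    refine h5.congr_fun (fun t _ => ?_) measurableSet_Iio
    simp only [kk, abs_neg]
  have h7 : Integrable (fun t : ℝ => kk a t * |t| ^ β) := by
    rw [← integrableOn_univ, ← Iio_union_Ici (a := (0 : ℝ))]
    refine h4.union ?_
    rw [integrableOn_Ici_iff_integrableOn_Ioi]
    exact h3
  unfold JJ
  exact h7.lintegral_lt_top

lemma JJ_scale {a β η : ℝ} (hη : η ≠ 0) :
    ∫⁻ y : ℝ, ENNReal.ofReal (kk a (η * y) * |y| ^ β) =
      ENNReal.ofReal (|η| ^ (-β - 1)) * JJ a β := by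
  have hη0 : 0 < |η| := abs_pos.2 hη
  have h1 : ∀ y : ℝ, ENNReal.ofReal (kk a (η * y) * |y| ^ β) =
      (fun t : ℝ => ENNReal.ofReal (|η| ^ (-β)) * ENNReal.ofReal (kk a t * |t| ^ β)) (η * y) := by
    intro y
    simp only
    rw [← ENNReal.ofReal_mul (by positivity), abs_mul, Real.mul_rpow hη0.le (abs_nonneg y)]
    congr 1
    have : |η| ^ (-β) * |η| ^ β = 1 := by
      rw [← Real.rpow_add hη0]; simp
    calc kk a (η * y) * |y| ^ β = (|η| ^ (-β) * |η| ^ β) * (kk a (η * y) * |y| ^ β) := by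
          rw [this, one_mul]
      _ = _ := by ring
  simp_rw [h1]
  rw [lsc hη (fun t : ℝ => ENNReal.ofReal (|η| ^ (-β)) * ENNReal.ofReal (kk a t * |t| ^ β)),
    lintegral_const_mul' _ _ ENNReal.ofReal_ne_top, ← mul_assoc, ← ENNReal.ofReal_mul (abs_nonneg _)]
  unfold JJ
  congr 2
  rw [abs_inv, ← Real.rpow_neg_one, ← Real.rpow_add hη0]
  congr 1
  ring

/-- product kernel -/
noncomputable def Kr {m : ℕ} (a : ℝ) (η y : Fin m → ℝ) : ℝ := ∏ i, kk a (η i * y i)

/-- product of the absolute values -/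
noncomputable def wr {m : ℕ} (y : Fin m → ℝ) : ℝ := ∏ i, |y i|

lemma Kr_pos {m : ℕ} (a : ℝ) (η y : Fin m → ℝ) : 0 < Kr a η y :=
  Finset.prod_pos fun i _ => kk_pos a _

lemma Kr_symm {m : ℕ} (a : ℝ) (η y : Fin m → ℝ) : Kr a η y = Kr a y η := by
  unfold Kr
  exact Finset.prod_congr rfl fun i _ => by rw [mul_comm]

lemma wr_pos {m : ℕ} {y : Fin m → ℝ} (h : ∀ i, y i ≠ 0) : 0 < wr y :=
  Finset.prod_pos fun i _ => abs_pos.2 (h i)

lemma wr_nonneg {m : ℕ} (y : Fin m → ℝ) : 0 ≤ wr y :=
  Finset.prod_nonneg fun i _ => abs_nonneg _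

lemma measurable_Kr {m : ℕ} (a : ℝ) :
    Measurable (fun q : (Fin m → ℝ) × (Fin m → ℝ) => Kr a q.1 q.2) := by
  unfold Kr
  refine Finset.measurable_fun_prod _ fun i _ => (measurable_kk a).comp ?_
  fun_prop

lemma measurable_wr {m : ℕ} : Measurable (fun y : Fin m → ℝ => wr y) := by
  unfold wr; fun_prop

lemma ae_ne {m : ℕ} : ∀ᵐ η : Fin m → ℝ, ∀ i, η i ≠ 0 := by
  rw [ae_all_iff]
  intro i
  rw [ae_iff]
  have h2 := Measure.pi_hyperplane (fun _ : Fin m => (volume : Measure ℝ)) i 0
  simpa [volume_pi] using h2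

lemma KW {m : ℕ} {a β : ℝ} {η : Fin m → ℝ} (hη : ∀ i, η i ≠ 0) :
    ∫⁻ y : Fin m → ℝ, ENNReal.ofReal (Kr a η y * wr y ^ β) =
      ENNReal.ofReal (wr η ^ (-β - 1)) * JJ a β ^ m := by
  have h1 : ∀ y : Fin m → ℝ, ENNReal.ofReal (Kr a η y * wr y ^ β) =
      ∏ i, ENNReal.ofReal (kk a (η i * y i) * |y i| ^ β) := by
    intro y
    rw [← ENNReal.ofReal_prod_of_nonneg (fun i _ => mul_nonneg (kk_pos a _).le (by positivity)),
      Finset.prod_mul_distrib, Real.finsetProd_rpow _ _ (fun i _ => abs_nonneg _)]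
    rfl
  simp_rw [h1]
  rw [Pool.Agent.TH807.CL.lint_prod
    (fun (i : Fin m) (x : ℝ) => ENNReal.ofReal (kk a (η i * x) * |x| ^ β))]
  · simp_rw [JJ_scale (hη _)]
    rw [Finset.prod_mul_distrib, Finset.prod_const, Finset.card_univ, Fintype.card_fin,
      ← ENNReal.ofReal_prod_of_nonneg (fun i _ => by positivity),
      Real.finsetProd_rpow _ _ (fun i _ => abs_nonneg _)]
    rfl
  · intro i
    refine Measurable.aemeasurable (Measurable.ennreal_ofReal (Measurable.mul ?_ ?_))
    · exact (measurable_kk a).comp (by fun_prop)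
    · exact Measurable.pow_const (by fun_prop) _

/-- Hölder -/
lemma holder_step {m : ℕ} {p a α : ℝ} (hp : 1 < p) {u : (Fin m → ℝ) → ℝ≥0∞}
    (hu : AEMeasurable u) {η : Fin m → ℝ} :
    (∫⁻ y, u y * ENNReal.ofReal (Kr a η y)) ^ p ≤
      (∫⁻ y, u y ^ p * ENNReal.ofReal (Kr a η y * wr y ^ (α * (p - 1)))) *
        (∫⁻ y, ENNReal.ofReal (Kr a η y * wr y ^ (-α))) ^ (p - 1) := by
  have hp0 : 0 < p := by linarith
  have hp1 : 0 < p - 1 := by linarith
  set q : ℝ := p / (p - 1) with hq
  have hpq : p.HolderConjugate q := Real.HolderConjugate.conjExponent hp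
  have hmK : Measurable (fun y : Fin m → ℝ => Kr a η y) :=
    (measurable_Kr a).comp (measurable_const.prodMk measurable_id)
  set f : (Fin m → ℝ) → ℝ≥0∞ := fun y =>
    u y * ENNReal.ofReal (Kr a η y * wr y ^ (α * (p - 1))) ^ (1 / p) with hf
  set g : (Fin m → ℝ) → ℝ≥0∞ := fun y =>
    ENNReal.ofReal (Kr a η y * wr y ^ (-α)) ^ (1 / q) with hg
  have hfm : AEMeasurable f := by
    refine hu.mul (Measurable.aemeasurable (Measurable.pow_const (Measurable.ennreal_ofReal ?_) _))
    exact hmK.mul (measurable_wr.pow_const _)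
  have hgm : AEMeasurable g := by
    refine Measurable.aemeasurable (Measurable.pow_const (Measurable.ennreal_ofReal ?_) _)
    exact hmK.mul (measurable_wr.pow_const _)
  have hH := ENNReal.lintegral_mul_le_Lp_mul_Lq volume hpq hfm hgm
  have hfg : ∫⁻ y, u y * ENNReal.ofReal (Kr a η y) = ∫⁻ y, (f * g) y := by
    refine lintegral_congr_ae ?_
    filter_upwards [ae_ne (m := m)] with y hy
    have hw := wr_pos hy
    have hK := Kr_pos a η y
    simp only [Pi.mul_apply, hf, hg]
    rw [mul_assoc, ENNReal.ofReal_rpow_of_pos (by positivity),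
      ENNReal.ofReal_rpow_of_pos (by positivity), ← ENNReal.ofReal_mul (by positivity)]
    congr 2
    rw [Real.mul_rpow hK.le (by positivity), Real.mul_rpow hK.le (by positivity),
      ← Real.rpow_mul hw.le, ← Real.rpow_mul hw.le]
    have e1 : Kr a η y ^ (1 / p) * Kr a η y ^ (1 / q) = Kr a η y := by
      rw [← Real.rpow_add hK]
      have : 1 / p + 1 / q = 1 := by
        have := hpq.inv_add_inv_eq_one
        rwa [one_div, one_div]
      rw [this, Real.rpow_one]
    have e2 : wr y ^ (α * (p - 1) * (1 / p)) * wr y ^ (-α * (1 / q)) = 1 := by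
      rw [← Real.rpow_add hw]
      have : α * (p - 1) * (1 / p) + -α * (1 / q) = 0 := by
        rw [hq]; field_simp; ring
      rw [this, Real.rpow_zero]
    calc Kr a η y = Kr a η y * 1 := (mul_one _).symm
      _ = (Kr a η y ^ (1 / p) * Kr a η y ^ (1 / q)) *
          (wr y ^ (α * (p - 1) * (1 / p)) * wr y ^ (-α * (1 / q))) := by rw [e1, e2]
      _ = _ := by ring
  rw [hfg]
  refine (ENNReal.rpow_le_rpow hH hp0.le).trans (le_of_eq ?_)
  rw [ENNReal.mul_rpow_of_nonneg _ _ hp0.le, ← ENNReal.rpow_mul, ← ENNReal.rpow_mul]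
  have e3 : 1 / p * p = 1 := by field_simp
  have e4 : 1 / q * p = p - 1 := by rw [hq]; field_simp
  rw [e3, e4, ENNReal.rpow_one]
  congr 1
  · refine lintegral_congr fun y => ?_
    simp only [hf]
    rw [ENNReal.mul_rpow_of_nonneg _ _ hp0.le, ← ENNReal.rpow_mul, e3, ENNReal.rpow_one]
  · congr 1
    refine lintegral_congr fun y => ?_
    simp only [hg]
    rw [← ENNReal.rpow_mul]
    have : 1 / q * q = 1 := by
      have hq0 : q ≠ 0 := hpq.symm.ne_zero
      field_simp
    rw [this, ENNReal.rpow_one]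

/-- the weighted Hardy inequality, centre `0` -/
theorem hardy0 (m : ℕ) {p a : ℝ} (hp : 1 < p) (ha : 1 - 1 / p < a) (ha1 : a ≤ 1) :
    ∃ C : ℝ, 0 < C ∧ ∀ u : (Fin m → ℝ) → ℝ≥0∞, AEMeasurable u →
      ∫⁻ η : Fin m → ℝ, ENNReal.ofReal (wr η ^ (p - 2)) *
        (∫⁻ y, u y * ENNReal.ofReal (Kr a η y)) ^ p ≤ ENNReal.ofReal C * ∫⁻ y, u y ^ p := by
  have hp0 : 0 < p := by linarith
  have hp1 : 0 < p - 1 := by linarith
  have hpa : p - 1 < a * p := by
    have := mul_lt_mul_of_pos_right ha hp0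
    have e : (1 - 1 / p) * p = p - 1 := by field_simp
    rwa [e] at this
  have ha0 : 0 < a := by
    have : (0 : ℝ) < 1 - 1 / p := by
      rw [sub_pos, div_lt_one hp0]; exact hp
    linarith
  have hlt : 1 - a < a / (p - 1) := by
    rw [lt_div_iff₀ hp1]; nlinarith
  obtain ⟨α, hα1, hα2⟩ : ∃ α, 1 - a < α ∧ α < a / (p - 1) := exists_between hlt
  have hα0 : 0 < α := by linarith
  have hαp : α * (p - 1) < a := by rwa [lt_div_iff₀ hp1] at hα2
  -- reduce to α < 1
  obtain ⟨α, hα1, hα2, hα3, hα0⟩ : ∃ α : ℝ, 1 - a < α ∧ α * (p - 1) < a ∧ α < 1 ∧ 0 < α := by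
    refine ⟨min α (1 - a / 2), ?_, ?_, ?_, ?_⟩
    · exact lt_min hα1 (by linarith)
    · exact lt_of_le_of_lt (mul_le_mul_of_nonneg_right (min_le_left _ _) hp1.le) hαp
    · exact lt_of_le_of_lt (min_le_right _ _) (by linarith)
    · exact lt_min hα0 (by linarith)
  have hJ1 : JJ a (-α) < ⊤ := JJ_lt ha0.le (by linarith) (by linarith)
  have hJ2 : JJ a (α * (p - 1) - 1) < ⊤ := by
    have : 0 < α * (p - 1) := by positivity
    exact JJ_lt ha0.le (by linarith) (by linarith)
  set B : ℝ≥0∞ := (JJ a (-α) ^ m) ^ (p - 1) * JJ a (α * (p - 1) - 1) ^ m with hB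
  have hBt : B < ⊤ := ENNReal.mul_lt_top
    (ENNReal.rpow_lt_top_of_nonneg hp1.le (ENNReal.pow_lt_top hJ1).ne) (ENNReal.pow_lt_top hJ2)
  refine ⟨B.toReal + 1, by positivity, ?_⟩
  intro u hu
  have hBle : B ≤ ENNReal.ofReal (B.toReal + 1) := by
    rw [ENNReal.ofReal_add ENNReal.toReal_nonneg zero_le_one, ENNReal.ofReal_toReal hBt.ne]
    exact le_self_add
  refine le_trans ?_ (mul_le_mul_left hBle _)
  have hup : AEMeasurable (fun y => u y ^ p) := hu.pow_const p
  calc ∫⁻ η : Fin m → ℝ, ENNReal.ofReal (wr η ^ (p - 2)) *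
        (∫⁻ y, u y * ENNReal.ofReal (Kr a η y)) ^ p
      ≤ ∫⁻ η : Fin m → ℝ, (JJ a (-α) ^ m) ^ (p - 1) * ∫⁻ y, u y ^ p *
          (ENNReal.ofReal (Kr a y η * wr η ^ (α * (p - 1) - 1)) *
            ENNReal.ofReal (wr y ^ (α * (p - 1)))) := by
        refine lintegral_mono_ae ?_
        filter_upwards [ae_ne (m := m)] with η hη
        have hw := wr_pos hη
        refine (mul_le_mul_right (holder_step (α := α) hp hu) _).trans (le_of_eq ?_)
        rw [KW hη, ENNReal.mul_rpow_of_nonneg _ _ hp1.le,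
          ENNReal.ofReal_rpow_of_pos (by positivity)]
        have e1 : ∀ X Y Z W : ℝ≥0∞, X * (Y * (Z * W)) = W * ((X * Z) * Y) := by
          intro X Y Z W; ring
        rw [e1]
        congr 1
        rw [← ENNReal.ofReal_mul (by positivity), ← lintegral_const_mul' _ _ ENNReal.ofReal_ne_top]
        refine lintegral_congr fun y => ?_
        have hwy := wr_nonneg y
        rw [mul_left_comm]
        congr 1
        rw [← ENNReal.ofReal_mul (by positivity),
          ← ENNReal.ofReal_mul (mul_nonneg (Kr_pos a y η).le (by positivity))]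
        congr 1
        rw [Kr_symm a η y, ← Real.rpow_mul hw.le, ← Real.rpow_add hw]
        have : p - 2 + (- -α - 1) * (p - 1) = α * (p - 1) - 1 := by ring
        rw [this]
        ring
    _ = (JJ a (-α) ^ m) ^ (p - 1) * ∫⁻ y : Fin m → ℝ, ∫⁻ η : Fin m → ℝ, u y ^ p *
          (ENNReal.ofReal (Kr a y η * wr η ^ (α * (p - 1) - 1)) *
            ENNReal.ofReal (wr y ^ (α * (p - 1)))) := by
        rw [lintegral_const_mul'']
        swap
        · refine AEMeasurable.lintegral_prod_right' (f := fun q : (Fin m → ℝ) × (Fin m → ℝ) =>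
            u q.2 ^ p * (ENNReal.ofReal (Kr a q.2 q.1 * wr q.1 ^ (α * (p - 1) - 1)) *
            ENNReal.ofReal (wr q.2 ^ (α * (p - 1))))) ?_
          refine AEMeasurable.mul ?_ ?_
          · exact hup.comp_quasiMeasurePreserving Measure.quasiMeasurePreserving_snd
          · refine Measurable.aemeasurable (Measurable.mul (Measurable.ennreal_ofReal ?_)
              (Measurable.ennreal_ofReal ?_))
            · refine Measurable.mul ?_ ((measurable_wr.comp measurable_fst).pow_const _)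
              exact (measurable_Kr a).comp (measurable_snd.prodMk measurable_fst)
            · exact (measurable_wr.comp measurable_snd).pow_const _
        congr 1
        refine lintegral_lintegral_swap ?_
        refine AEMeasurable.mul ?_ ?_
        · exact hup.comp_quasiMeasurePreserving Measure.quasiMeasurePreserving_snd
        · refine Measurable.aemeasurable (Measurable.mul (Measurable.ennreal_ofReal ?_)
            (Measurable.ennreal_ofReal ?_))
          · refine Measurable.mul ?_ ((measurable_wr.comp measurable_fst).pow_const _)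
            exact (measurable_Kr a).comp (measurable_snd.prodMk measurable_fst)
          · exact (measurable_wr.comp measurable_snd).pow_const _
    _ = (JJ a (-α) ^ m) ^ (p - 1) * ∫⁻ y : Fin m → ℝ, u y ^ p *
          JJ a (α * (p - 1) - 1) ^ m := by
        congr 1
        refine lintegral_congr_ae ?_
        filter_upwards [ae_ne (m := m)] with y hy
        have hw := wr_pos hy
        have hmK : Measurable (fun η : Fin m → ℝ => Kr a y η) :=
          (measurable_Kr a).comp (measurable_const.prodMk measurable_id)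
        have hm2 : Measurable (fun η : Fin m → ℝ =>
            ENNReal.ofReal (Kr a y η * wr η ^ (α * (p - 1) - 1))) :=
          Measurable.ennreal_ofReal (hmK.mul (measurable_wr.pow_const _))
        rw [lintegral_const_mul _ (hm2.mul_const _), lintegral_mul_const _ hm2, KW hy]
        congr 1
        rw [mul_right_comm, ← ENNReal.ofReal_mul (by positivity), ← Real.rpow_add hw]
        have : -(α * (p - 1) - 1) - 1 + α * (p - 1) = 0 := by ring
        rw [this, Real.rpow_zero, ENNReal.ofReal_one, one_mul]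
    _ = B * ∫⁻ y, u y ^ p := by
        rw [lintegral_mul_const'' _ hup, hB]
        ring

/-- the weighted Hardy inequality -/
theorem hardy (m : ℕ) {p a : ℝ} (hp : 1 < p) (ha : 1 - 1 / p < a) (ha1 : a ≤ 1) :
    ∃ C : ℝ, 0 < C ∧ ∀ (c : Fin m → ℝ) (u : (Fin m → ℝ) → ℝ≥0∞), AEMeasurable u →
      ∫⁻ η : Fin m → ℝ, ENNReal.ofReal (wr η ^ (p - 2)) *
        (∫⁻ y, u y * ENNReal.ofReal (Kr a η (y - c))) ^ p ≤ ENNReal.ofReal C * ∫⁻ y, u y ^ p := by
  obtain ⟨C, hC, h⟩ := hardy0 m hp ha ha1
  refine ⟨C, hC, fun c u hu => ?_⟩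
  have hu' : AEMeasurable (fun y => u (y + c)) :=
    hu.comp_quasiMeasurePreserving
      (measurePreserving_add_right volume c).quasiMeasurePreserving
  have h1 := h (fun y => u (y + c)) hu'
  have e1 : ∀ η : Fin m → ℝ, ∫⁻ y, u (y + c) * ENNReal.ofReal (Kr a η y) =
      ∫⁻ y, u y * ENNReal.ofReal (Kr a η (y - c)) := by
    intro η
    rw [← lintegral_add_right_eq_self (fun y => u y * ENNReal.ofReal (Kr a η (y - c))) c]
    refine lintegral_congr fun y => ?_
    rw [add_sub_cancel_right]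
  have e2 : ∫⁻ y, u (y + c) ^ p = ∫⁻ y, u y ^ p :=
    lintegral_add_right_eq_self (fun y => u y ^ p) c
  simp only [e1, e2] at h1
  exact h1

end Pool.Agent.R462.HS
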