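import Pool.Agent.R462.HS.Slice
set_option autoImplicit false

/-! # Mixed differences, mixtures, boxes -/

open MeasureTheory Set Filter
open scoped ENNReal Topology

namespace Pool.Agent.R462.HS

open Pool.Agent.TH280.LS

/-! ### mixed differences -/

/-- mixed difference -/
noncomputable def mdiff {m : ℕ} (g : (Fin m → ℝ) → ℂ) (h y : Fin m → ℝ) : ℂ :=
  ∑ S : Finset (Fin m), (-1) ^ S.card * g (y + fun i => if i ∈ S then h i else 0)

lemma ftm_shift {m : ℕ} (g : (Fin m → ℝ) → ℂ) (v η : Fin m → ℝ) :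
    ∫ y : Fin m → ℝ, e (-(∑ i, y i * η i)) * g (y + v) = e (∑ i, v i * η i) * ftm m g η := by
  unfold ftm
  rw [← integral_add_right_eq_self (fun y => e (-(∑ i, y i * η i)) * g y) v, ← integral_const_mul]
  refine integral_congr_ae (Eventually.of_forall fun y => ?_)
  simp only
  rw [← mul_assoc, ← e_add]
  congr 2
  rw [← Finset.sum_neg_distrib, ← Finset.sum_neg_distrib, ← Finset.sum_add_distrib]
  refine Finset.sum_congr rfl fun i _ => ?_
  rw [Pi.add_apply]; ring

lemma e_half : e (1 / 2) = -1 := by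
  unfold e
  have : ((2 * Real.pi * (1 / 2) : ℝ) : ℂ) * Complex.I = Real.pi * Complex.I := by
    push_cast; ring
  rw [this, Complex.exp_pi_mul_I]

lemma e_card {m : ℕ} (S : Finset (Fin m)) {η : Fin m → ℝ} (hη : ∀ i, η i ≠ 0) :
    e (∑ i, (if i ∈ S then 1 / (2 * η i) else 0) * η i) = (-1) ^ S.card := by
  have h1 : ∑ i, (if i ∈ S then 1 / (2 * η i) else 0) * η i = ∑ i ∈ S, (1 / 2 : ℝ) := by
    rw [← Finset.sum_filter_add_sum_filter_not Finset.univ (fun i => i ∈ S)]
    have h2 : ∑ x ∈ Finset.univ with x ∉ S, (if x ∈ S then 1 / (2 * η x) else 0) * η x = 0 := by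
      refine Finset.sum_eq_zero fun i hi => ?_
      have : i ∉ S := by simpa using hi
      rw [if_neg this, zero_mul]
    rw [h2, add_zero]
    have h3 : (Finset.univ.filter fun i => i ∈ S) = S := by ext; simp
    rw [h3]
    refine Finset.sum_congr rfl fun i hi => ?_
    rw [if_pos hi]
    have := hη i
    field_simp
  rw [h1]
  induction S using Finset.induction_on with
  | empty => simp [e_zero]
  | insert i S hi ih =>
    rw [Finset.sum_insert hi, e_add, Finset.card_insert_of_notMem hi, pow_succ, e_half]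
    have ih' : e (∑ i ∈ S, (1 / 2 : ℝ)) = (-1) ^ S.card := by
      refine ih ?_
      rw [← Finset.sum_filter_add_sum_filter_not Finset.univ (fun i => i ∈ S)]
      have h2 : ∑ x ∈ Finset.univ with x ∉ S, (if x ∈ S then 1 / (2 * η x) else 0) * η x = 0 := by
        refine Finset.sum_eq_zero fun i hi => ?_
        have : i ∉ S := by simpa using hi
        rw [if_neg this, zero_mul]
      rw [h2, add_zero]
      have h3 : (Finset.univ.filter fun i => i ∈ S) = S := by ext; simp
      rw [h3]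
      refine Finset.sum_congr rfl fun i hi => ?_
      rw [if_pos hi]
      have := hη i
      field_simp
    rw [ih']
    ring

lemma mdiff_ftm {m : ℕ} {g : (Fin m → ℝ) → ℂ} (hg : Integrable g) {η : Fin m → ℝ}
    (hη : ∀ i, η i ≠ 0) :
    ∫ y : Fin m → ℝ, e (-(∑ i, y i * η i)) * mdiff g (fun i => 1 / (2 * η i)) y =
      2 ^ m * ftm m g η := by
  unfold mdiff
  simp_rw [Finset.mul_sum]
  rw [integral_finset_sum]
  · have h1 : ∀ S : Finset (Fin m), ∫ y : Fin m → ℝ, e (-(∑ i, y i * η i)) *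
        ((-1) ^ S.card * g (y + fun i => if i ∈ S then 1 / (2 * η i) else 0)) = ftm m g η := by
      intro S
      have h2 : ∀ y : Fin m → ℝ, e (-(∑ i, y i * η i)) *
          ((-1) ^ S.card * g (y + fun i => if i ∈ S then 1 / (2 * η i) else 0)) =
          (-1) ^ S.card * (e (-(∑ i, y i * η i)) *
            g (y + fun i => if i ∈ S then 1 / (2 * η i) else 0)) := fun y => by ring
      simp_rw [h2]
      rw [integral_const_mul, ftm_shift, e_card S hη, ← mul_assoc, ← mul_pow]
      norm_num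
    simp_rw [h1]
    rw [Finset.sum_const, Finset.card_univ, Fintype.card_finset, Fintype.card_fin, nsmul_eq_mul]
    push_cast
    rfl
  · intro S _
    refine Integrable.bdd_mul (c := 1) ((hg.comp_add_right _).const_mul _) ?_ ?_
    · exact (measurable_e.comp (Measurable.neg (by fun_prop))).aestronglyMeasurable
    · exact Eventually.of_forall fun y => (norm_e _).le

/-- **The difference criterion.** -/
theorem diff_dom' {m N : ℕ} {a Λ : ℝ} (ha : 0 ≤ a) (hΛ : 0 ≤ Λ) {g : (Fin m → ℝ) → ℂ}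
    (hg : Integrable g) (c : Fin N → Fin m → ℝ)
    (h : ∀ h : Fin m → ℝ, (∀ i, h i ≠ 0) → ∫ y, ‖mdiff g h y‖ ≤
      Λ * ∑ j, ∫ y, ‖g y‖ * ∏ i, (1 + |(y i - c j i) / h i|) ^ (-a)) :
    ∀ η : Fin m → ℝ, (∀ i, η i ≠ 0) → ‖ftm m g η‖ ≤
      Λ * ∑ j, ∫ y, ‖g y‖ * ∏ i, (1 + |η i * (y i - c j i)|) ^ (-a) := by
  intro η hη
  have h1 := h (fun i => 1 / (2 * η i)) (fun i => by have := hη i; positivity)
  have h2 := mdiff_ftm hg hη
  have h3 : (2 : ℝ) ^ m * ‖ftm m g η‖ ≤ ∫ y, ‖mdiff g (fun i => 1 / (2 * η i)) y‖ := by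
    have h4 : (2 : ℝ) ^ m * ‖ftm m g η‖ = ‖(2 : ℂ) ^ m * ftm m g η‖ := by
      rw [norm_mul, norm_pow, Complex.norm_ofNat]
    rw [h4, ← h2]
    refine (norm_integral_le_integral_norm _).trans (le_of_eq ?_)
    refine integral_congr_ae (Eventually.of_forall fun y => ?_)
    simp only [norm_mul, norm_e, one_mul]
  have h5 : (1 : ℝ) ≤ 2 ^ m := one_le_pow₀ (by norm_num)
  have h6 : ‖ftm m g η‖ ≤ 2 ^ m * ‖ftm m g η‖ := le_mul_of_one_le_left (norm_nonneg _) h5
  refine h6.trans (h3.trans (h1.trans (mul_le_mul_of_nonneg_left ?_ hΛ)))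
  refine Finset.sum_le_sum fun j _ => ?_
  refine integral_mono_of_nonneg (Eventually.of_forall fun y => ?_) ?_
    (Eventually.of_forall fun y => ?_)
  · exact mul_nonneg (norm_nonneg _) (Finset.prod_nonneg fun i _ => by positivity)
  · simp only [kr_eq]
    exact int_gK ha η (c j) hg
  · refine mul_le_mul_of_nonneg_left ?_ (norm_nonneg _)
    refine Finset.prod_le_prod (fun i _ => by positivity) fun i _ => ?_
    refine Real.rpow_le_rpow_of_nonpos (by positivity) ?_ (by linarith)
    have h7 : (y i - c j i) / (1 / (2 * η i)) = 2 * (η i * (y i - c j i)) := by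
      have := hη i
      field_simp
    rw [h7, abs_mul (2 : ℝ), abs_of_pos (by norm_num : (0 : ℝ) < 2)]
    have := abs_nonneg (η i * (y i - c j i))
    linarith

/-! ### mixtures -/

/-- **Positive mixtures.** -/
theorem mix_dom' {m N : ℕ} {a Λ : ℝ} (ha : 0 ≤ a) (hΛ : 0 ≤ Λ) {Ω : Type*} [MeasurableSpace Ω]
    (μ : Measure Ω) [SFinite μ] (K : Ω → (Fin m → ℝ) → ℝ) (hKm : Measurable (Function.uncurry K))
    (hK0 : ∀ ω y, 0 ≤ K ω y) (hfin : ∫⁻ ω, (∫⁻ y, ENNReal.ofReal (K ω y)) ∂μ ≠ ⊤)
    (c : Fin N → Fin m → ℝ)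
    (hD : ∀ᵐ ω ∂μ, ∀ η : Fin m → ℝ, (∀ i, η i ≠ 0) →
      ‖ftm m (fun y => ((K ω y : ℝ) : ℂ)) η‖ ≤
        Λ * ∑ j, ∫ y, K ω y * ∏ i, (1 + |η i * (y i - c j i)|) ^ (-a))
    (b : ℂ) (g : (Fin m → ℝ) → ℂ) (hg : ∀ᵐ y, g y = b * ((∫ ω, K ω y ∂μ : ℝ) : ℂ)) :
    ∀ η : Fin m → ℝ, (∀ i, η i ≠ 0) → ‖ftm m g η‖ ≤
      Λ * ∑ j, ∫ y, ‖g y‖ * ∏ i, (1 + |η i * (y i - c j i)|) ^ (-a) := by
  intro η hη
  simp only [kr_eq] at hD ⊢
  have hi : Integrable (Function.uncurry K) (μ.prod volume) := by
    refine ⟨hKm.aestronglyMeasurable, ?_⟩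
    rw [hasFiniteIntegral_iff_norm]
    have h1 : ∫⁻ q, ENNReal.ofReal ‖Function.uncurry K q‖ ∂(μ.prod volume) =
        ∫⁻ ω, (∫⁻ y, ENNReal.ofReal (K ω y)) ∂μ := by
      rw [lintegral_prod]
      · refine lintegral_congr fun ω => lintegral_congr fun y => ?_
        simp only [Function.uncurry, Real.norm_eq_abs, abs_of_nonneg (hK0 ω y)]
      · exact (hKm.norm.ennreal_ofReal).aemeasurable
    rw [h1]
    exact lt_of_le_of_ne le_top hfin
  have hi1 : ∀ (w : (Fin m → ℝ) → ℝ), Measurable w → (∀ y, |w y| ≤ 1) →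
      Integrable (fun q : Ω × (Fin m → ℝ) => K q.1 q.2 * w q.2) (μ.prod volume) := by
    intro w hw hw1
    refine hi.mul_bdd (c := 1) (hw.comp measurable_snd).aestronglyMeasurable ?_
    exact Eventually.of_forall fun q => hw1 q.2
  -- the Fourier transform
  have hF : ftm m g η = b * ∫ ω, ftm m (fun y => ((K ω y : ℝ) : ℂ)) η ∂μ := by
    unfold ftm
    rw [integral_integral_swap, ← integral_const_mul]
    · refine integral_congr_ae ?_
      filter_upwards [hg] with y hy
      rw [hy, integral_const_mul, integral_complex_ofReal]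
      ring
    · refine Integrable.bdd_mul (c := 1) hi.ofReal ?_ ?_
      · exact (measurable_e.comp (Measurable.neg (by fun_prop))).aestronglyMeasurable
      · exact Eventually.of_forall fun y => (norm_e _).le
  have hswap : ∀ j, ∫ ω, (∫ y, K ω y * Kr a η (y - c j)) ∂μ =
      ∫ y, (∫ ω, K ω y ∂μ) * Kr a η (y - c j) := by
    intro j
    rw [integral_integral_swap]
    · refine integral_congr_ae (Eventually.of_forall fun y => ?_)
      simp only
      rw [integral_mul_const]
    · refine hi1 _ (measurable_Kr_c a η (c j)) fun y => ?_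
      rw [abs_of_pos (Kr_pos _ _ _)]
      exact Kr_le_one ha _ _
  have hb : ∀ j, ∫ y, ‖g y‖ * Kr a η (y - c j) =
      ‖b‖ * ∫ ω, (∫ y, K ω y * Kr a η (y - c j)) ∂μ := by
    intro j
    rw [hswap j, ← integral_const_mul]
    refine integral_congr_ae ?_
    filter_upwards [hg] with y hy
    rw [hy, norm_mul, Complex.norm_real, Real.norm_eq_abs, abs_of_nonneg, mul_assoc]
    exact integral_nonneg fun ω => hK0 ω y
  have hii : ∀ j, Integrable (fun ω => ∫ y, K ω y * Kr a η (y - c j)) μ := by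
    intro j
    refine (hi1 _ (measurable_Kr_c a η (c j)) fun y => ?_).integral_prod_left
    rw [abs_of_pos (Kr_pos _ _ _)]
    exact Kr_le_one ha _ _
  rw [hF, norm_mul]
  simp_rw [hb]
  rw [← Finset.mul_sum, ← integral_finset_sum _ (fun j _ => hii j)]
  calc ‖b‖ * ‖∫ ω, ftm m (fun y => ((K ω y : ℝ) : ℂ)) η ∂μ‖
      ≤ ‖b‖ * ∫ ω, (Λ * ∑ j, ∫ y, K ω y * Kr a η (y - c j)) ∂μ := by
        refine mul_le_mul_of_nonneg_left ?_ (norm_nonneg _)
        refine (norm_integral_le_integral_norm _).trans (integral_mono_of_nonneg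
          (Eventually.of_forall fun ω => norm_nonneg _)
          ((integrable_finset_sum _ fun j _ => hii j).const_mul Λ) ?_)
        filter_upwards [hD] with ω hω
        exact hω η hη
    _ = _ := by
        rw [integral_const_mul]; ring

/-! ### boxes -/

lemma norm_int_e_le {l r η : ℝ} (hlr : l ≤ r) (hη : η ≠ 0) :
    ‖∫ y in Icc l r, e (-(y * η))‖ ≤ min (r - l) (1 / |η|) := by
  refine le_min ?_ ?_
  · refine (norm_integral_le_integral_norm _).trans (le_of_eq ?_)
    simp only [norm_e]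
    rw [setIntegral_const, smul_eq_mul, mul_one, Real.volume_real_Icc_of_le hlr]
  · rw [integral_Icc_eq_integral_Ioc, ← intervalIntegral.integral_of_le hlr]
    have hc : (-(2 * Real.pi * η) : ℝ) * Complex.I ≠ 0 := by
      refine mul_ne_zero ?_ Complex.I_ne_zero
      have := Real.pi_ne_zero
      rw [Complex.ofReal_ne_zero]
      simpa using hη
    have h1 : ∫ y in l..r, e (-(y * η)) =
        ∫ y in l..r, Complex.exp (((-(2 * Real.pi * η) : ℝ) * Complex.I) * y) := by
      refine intervalIntegral.integral_congr fun y _ => ?_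
      unfold e
      congr 1
      push_cast; ring
    rw [h1, integral_exp_mul_complex hc, norm_div, norm_mul, Complex.norm_I, mul_one,
      Complex.norm_real, Real.norm_eq_abs, abs_neg, abs_mul, abs_mul,
      abs_of_pos Real.pi_pos, abs_of_pos (by norm_num : (0 : ℝ) < 2)]
    have hη0 : 0 < |η| := abs_pos.2 hη
    have h2 : ‖Complex.exp (((-(2 * Real.pi * η) : ℝ) * Complex.I) * r) -
        Complex.exp (((-(2 * Real.pi * η) : ℝ) * Complex.I) * l)‖ ≤ 2 := by
      refine (norm_sub_le _ _).trans ?_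
      have h3 : ∀ y : ℝ, ‖Complex.exp (((-(2 * Real.pi * η) : ℝ) * Complex.I) * y)‖ = 1 := by
        intro y
        have : ((-(2 * Real.pi * η) : ℝ) * Complex.I) * y =
            ((-(2 * Real.pi * η) * y : ℝ) : ℂ) * Complex.I := by push_cast; ring
        rw [this, Complex.norm_exp_ofReal_mul_I]
      rw [h3, h3]; norm_num
    rw [div_le_div_iff₀ (by positivity) hη0]
    have h4 := Real.pi_gt_three
    nlinarith

lemma int_kk_ge {l r c η a : ℝ} (hl : l ≤ c) (hr : c ≤ r) (hη : η ≠ 0) (ha : 0 ≤ a)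
    (ha1 : a ≤ 1) :
    min (r - l) (1 / |η|) ≤ 4 * ∫ y in Icc l r, kk a (η * (y - c)) := by
  have hη0 : 0 < |η| := abs_pos.2 hη
  set ρ : ℝ := min (max (r - c) (c - l)) (1 / |η|) with hρ
  have hρ0 : 0 ≤ ρ := le_min (le_max_of_le_left (by linarith)) (by positivity)
  have hρη : |η| * ρ ≤ 1 := by
    calc |η| * ρ ≤ |η| * (1 / |η|) := mul_le_mul_of_nonneg_left (min_le_right _ _) hη0.le
      _ = 1 := by field_simp
  have hint : IntegrableOn (fun y => kk a (η * (y - c))) (Icc l r) := by
    refine Measure.integrableOn_of_bounded (M := 1) (by simp) ?_ ?_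
    · exact ((measurable_kk a).comp (by fun_prop)).aestronglyMeasurable
    · refine Eventually.of_forall fun y => ?_
      rw [Real.norm_eq_abs, abs_of_pos (kk_pos _ _)]
      exact kk_le_one ha _
  obtain ⟨x, hx, hxr, hxc⟩ : ∃ x, l ≤ x ∧ x + ρ ≤ r ∧ ∀ y ∈ Icc x (x + ρ), |y - c| ≤ ρ := by
    rcases le_total (c - l) (r - c) with h | h
    · refine ⟨c, hl, ?_, ?_⟩
      · have : ρ ≤ r - c := (min_le_left _ _).trans (by rw [max_eq_left h])
        linarith
      · intro y hy
        rw [abs_of_nonneg (by linarith [hy.1])]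
        linarith [hy.2]
    · have h1 : ρ ≤ c - l := (min_le_left _ _).trans (by rw [max_eq_right h])
      refine ⟨c - ρ, by linarith, by linarith, ?_⟩
      intro y hy
      have h2 := hy.1
      have h3 := hy.2
      rw [abs_le]
      constructor <;> linarith
  have hsub : Icc x (x + ρ) ⊆ Icc l r := Icc_subset_Icc hx hxr
  have h1 : ρ / 2 ≤ ∫ y in Icc l r, kk a (η * (y - c)) := by
    calc ρ / 2 = ∫ _ in Icc x (x + ρ), (1 / 2 : ℝ) := by
          rw [setIntegral_const, smul_eq_mul, Real.volume_real_Icc_of_le (by linarith)]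
          ring
      _ ≤ ∫ y in Icc x (x + ρ), kk a (η * (y - c)) := by
          refine setIntegral_mono_on (by simp) (hint.mono_set hsub) measurableSet_Icc ?_
          intro y hy
          have h2 : |η * (y - c)| ≤ 1 := by
            rw [abs_mul]
            exact (mul_le_mul_of_nonneg_left (hxc y hy) hη0.le).trans hρη
          unfold kk
          have h3 : (0 : ℝ) < 1 + |η * (y - c)| := by positivity
          calc (1 / 2 : ℝ) = (2 : ℝ) ^ (-(1 : ℝ)) := by rw [Real.rpow_neg_one]; norm_num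
            _ ≤ (2 : ℝ) ^ (-a) :=
              Real.rpow_le_rpow_of_exponent_le (by norm_num) (by linarith)
            _ ≤ (1 + |η * (y - c)|) ^ (-a) :=
              Real.rpow_le_rpow_of_nonpos h3 (by linarith) (by linarith)
      _ ≤ _ := setIntegral_mono_set hint (Eventually.of_forall fun y => (kk_pos _ _).le)
          (Eventually.of_forall hsub)
  have h2 : min (r - l) (1 / |η|) ≤ 2 * ρ := by
    rw [hρ, mul_min_of_nonneg _ _ (by norm_num : (0 : ℝ) ≤ 2)]
    refine min_le_min ?_ ?_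
    · have e1 := le_max_left (r - c) (c - l)
      have e2 := le_max_right (r - c) (c - l)
      linarith
    · have : 0 < 1 / |η| := by positivity
      linarith
  linarith

/-- **Boxes.** -/
theorem box_dom {m : ℕ} {a : ℝ} (ha : 0 ≤ a) (ha1 : a ≤ 1) {l r c : Fin m → ℝ}
    (hl : ∀ i, l i ≤ c i) (hr : ∀ i, c i ≤ r i) (η : Fin m → ℝ) (hη : ∀ i, η i ≠ 0) :
    ‖ftm m (fun y => (((Icc l r).indicator (fun _ => (1 : ℝ)) y : ℝ) : ℂ)) η‖ ≤
      4 ^ m * ∫ y, (Icc l r).indicator (fun _ => (1 : ℝ)) y *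
        ∏ i, (1 + |η i * (y i - c i)|) ^ (-a) := by
  have hind : ∀ y : Fin m → ℝ, (Icc l r).indicator (fun _ => (1 : ℝ)) y =
      ∏ i, (Icc (l i) (r i)).indicator (fun _ => (1 : ℝ)) (y i) := by
    intro y
    by_cases hy : y ∈ Icc l r
    · rw [indicator_of_mem hy]
      symm
      refine Finset.prod_eq_one fun i _ => ?_
      exact indicator_of_mem (mem_Icc.2 ⟨hy.1 i, hy.2 i⟩) _
    · rw [indicator_of_notMem hy]
      symm
      have : ∃ i, ¬ (y i ∈ Icc (l i) (r i)) := by
        by_contra hc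
        push Not at hc
        exact hy ⟨fun i => (hc i).1, fun i => (hc i).2⟩
      obtain ⟨i, hi⟩ := this
      exact Finset.prod_eq_zero (Finset.mem_univ i) (indicator_of_notMem hi _)
  have h1 : ftm m (fun y => (((Icc l r).indicator (fun _ => (1 : ℝ)) y : ℝ) : ℂ)) η =
      ∏ i, ∫ y in Icc (l i) (r i), e (-(y * η i)) := by
    have h2 : ∀ i, ∫ y in Icc (l i) (r i), e (-(y * η i)) =
        ∫ y : ℝ, e (-(y * η i)) * (((Icc (l i) (r i)).indicator (fun _ => (1 : ℝ)) y : ℝ) : ℂ) := by
      intro i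
      rw [← integral_indicator measurableSet_Icc]
      refine integral_congr_ae (Eventually.of_forall fun y => ?_)
      simp only
      by_cases hy : y ∈ Icc (l i) (r i)
      · rw [indicator_of_mem hy, indicator_of_mem hy]; simp
      · rw [indicator_of_notMem hy, indicator_of_notMem hy]; simp
    simp_rw [h2]
    rw [← integral_fintype_prod_volume_eq_prod (fun (i : Fin m) (y : ℝ) =>
      e (-(y * η i)) * (((Icc (l i) (r i)).indicator (fun _ => (1 : ℝ)) y : ℝ) : ℂ))]
    unfold ftm
    refine integral_congr_ae (Eventually.of_forall fun y => ?_)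
    simp only
    rw [hind, Finset.prod_mul_distrib, Complex.ofReal_prod]
    congr 1
    unfold e
    rw [← Complex.exp_sum, ← Finset.sum_mul, ← Complex.ofReal_sum, ← Finset.mul_sum,
      Finset.sum_neg_distrib]
  have h3 : ∫ y, (Icc l r).indicator (fun _ => (1 : ℝ)) y *
        ∏ i, (1 + |η i * (y i - c i)|) ^ (-a) =
      ∏ i, ∫ y in Icc (l i) (r i), kk a (η i * (y - c i)) := by
    have h2 : ∀ i, ∫ y in Icc (l i) (r i), kk a (η i * (y - c i)) =
        ∫ y : ℝ, (Icc (l i) (r i)).indicator (fun _ => (1 : ℝ)) y * kk a (η i * (y - c i)) := by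
      intro i
      rw [← integral_indicator measurableSet_Icc]
      refine integral_congr_ae (Eventually.of_forall fun y => ?_)
      simp only
      by_cases hy : y ∈ Icc (l i) (r i)
      · rw [indicator_of_mem hy, indicator_of_mem hy]; simp
      · rw [indicator_of_notMem hy, indicator_of_notMem hy]; simp
    simp_rw [h2]
    rw [← integral_fintype_prod_volume_eq_prod (fun (i : Fin m) (y : ℝ) =>
      (Icc (l i) (r i)).indicator (fun _ => (1 : ℝ)) y * kk a (η i * (y - c i)))]
    refine integral_congr_ae (Eventually.of_forall fun y => ?_)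
    simp only
    rw [hind, Finset.prod_mul_distrib]
    rfl
  rw [h1, h3, norm_prod]
  have e0 : (4 : ℝ) ^ m = ∏ _i : Fin m, (4 : ℝ) := by simp
  rw [e0, ← Finset.prod_mul_distrib]
  refine Finset.prod_le_prod (fun i _ => norm_nonneg _) fun i _ => ?_
  exact (norm_int_e_le ((hl i).trans (hr i)) (hη i)).trans
    (int_kk_ge (hl i) (hr i) (hη i) ha ha1)

end Pool.Agent.R462.HS
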