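import Pool.Agent.R462.HS.Hardy
import Pool.Agent.TH280.LS.K5
set_option autoImplicit false

/-! # Data with slices dominated by Hardy averages: the estimate for one datum -/

open MeasureTheory Set Filter
open scoped ENNReal FourierTransform RealInnerProductSpace Topology

namespace Pool.Agent.R462.HS

open Pool.Agent.TH280.LS

/-- the Fourier transform is dominated by `N` Hardy averages -/
def Dom {m : ℕ} (N : ℕ) (a Λ : ℝ) (g : (Fin m → ℝ) → ℂ) : Prop :=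
  ∃ c : Fin N → Fin m → ℝ, ∀ η : Fin m → ℝ, (∀ i, η i ≠ 0) →
    ‖ftm m g η‖ ≤ Λ * ∑ j, ∫ y, ‖g y‖ * ∏ i, (1 + |η i * (y i - c j i)|) ^ (-a)

lemma kr_eq {m : ℕ} (a : ℝ) (η y c : Fin m → ℝ) :
    ∏ i, (1 + |η i * (y i - c i)|) ^ (-a) = Kr a η (y - c) := by
  unfold Kr kk
  exact Finset.prod_congr rfl fun i _ => by rw [Pi.sub_apply]

lemma kk_le_one {a : ℝ} (ha : 0 ≤ a) (t : ℝ) : kk a t ≤ 1 := by
  unfold kk
  exact Real.rpow_le_one_of_one_le_of_nonpos (by have := abs_nonneg t; linarith) (by linarith)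

lemma Kr_le_one {m : ℕ} {a : ℝ} (ha : 0 ≤ a) (η y : Fin m → ℝ) : Kr a η y ≤ 1 :=
  Finset.prod_le_one (fun i _ => (kk_pos a _).le) fun i _ => kk_le_one ha _

lemma measurable_Kr_c {m : ℕ} (a : ℝ) (η c : Fin m → ℝ) :
    Measurable (fun y : Fin m → ℝ => Kr a η (y - c)) :=
  (measurable_Kr a).comp (measurable_const.prodMk (measurable_id.sub_const c))

lemma int_gK {m : ℕ} {a : ℝ} (ha : 0 ≤ a) (η c : Fin m → ℝ) {g : (Fin m → ℝ) → ℂ}
    (hg : Integrable g) : Integrable (fun y => ‖g y‖ * Kr a η (y - c)) := by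
  refine hg.norm.mul_bdd (c := 1) (measurable_Kr_c a η c).aestronglyMeasurable ?_
  refine Eventually.of_forall fun y => ?_
  rw [Real.norm_eq_abs, abs_of_pos (Kr_pos _ _ _)]
  exact Kr_le_one ha _ _

/-- the slice inequality -/
theorem dom_slice (m N : ℕ) {p a Λ : ℝ} (hp : 1 < p) (ha : 1 - 1 / p < a) (ha1 : a ≤ 1)
    (hΛ : 0 ≤ Λ) : ∃ C : ℝ, 0 < C ∧ ∀ g : (Fin m → ℝ) → ℂ, Integrable g → Dom N a Λ g →
      ∫⁻ η : Fin m → ℝ, ENNReal.ofReal ((∏ i, |η i|) ^ (p - 2)) * ‖ftm m g η‖ₑ ^ p ≤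
        ENNReal.ofReal C * ∫⁻ y, ‖g y‖ₑ ^ p := by
  have hp0 : 0 < p := by linarith
  have ha0 : 0 ≤ a := by
    have : (0 : ℝ) < 1 - 1 / p := by
      rw [sub_pos, div_lt_one hp0]; exact hp
    linarith
  obtain ⟨C, hC, h⟩ := hardy m hp ha ha1
  refine ⟨Λ ^ p * ((N : ℝ) ^ (p - 1) * (N * C)) + 1, by positivity, ?_⟩
  rintro g hg ⟨c, hc⟩
  have hgm : AEMeasurable (fun y => ‖g y‖ₑ) := hg.1.aemeasurable.enorm
  -- pointwise
  have h1 : ∀ η : Fin m → ℝ, (∀ i, η i ≠ 0) → ‖ftm m g η‖ₑ ≤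
      ENNReal.ofReal Λ * ∑ j, ∫⁻ y, ‖g y‖ₑ * ENNReal.ofReal (Kr a η (y - c j)) := by
    intro η hη
    have h2 := hc η hη
    simp only [kr_eq] at h2
    rw [← ofReal_norm]
    refine (ENNReal.ofReal_le_ofReal h2).trans (le_of_eq ?_)
    rw [ENNReal.ofReal_mul hΛ, ENNReal.ofReal_sum_of_nonneg]
    swap
    · intro j _
      exact integral_nonneg fun y => mul_nonneg (norm_nonneg _) (Kr_pos _ _ _).le
    congr 1
    refine Finset.sum_congr rfl fun j _ => ?_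
    rw [ofReal_integral_eq_lintegral_ofReal (int_gK ha0 η (c j) hg)
      (Eventually.of_forall fun y => mul_nonneg (norm_nonneg _) (Kr_pos _ _ _).le)]
    refine lintegral_congr fun y => ?_
    rw [ENNReal.ofReal_mul (norm_nonneg _), ofReal_norm]
  have hmeas : ∀ j, AEMeasurable (fun η : Fin m → ℝ => ENNReal.ofReal (wr η ^ (p - 2)) *
      (∫⁻ y, ‖g y‖ₑ * ENNReal.ofReal (Kr a η (y - c j))) ^ p) := by
    intro j
    refine AEMeasurable.mul (Measurable.aemeasurable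
      (Measurable.ennreal_ofReal (measurable_wr.pow_const _))) (AEMeasurable.pow_const ?_ _)
    refine AEMeasurable.lintegral_prod_right' (f := fun q : (Fin m → ℝ) × (Fin m → ℝ) =>
      ‖g q.2‖ₑ * ENNReal.ofReal (Kr a q.1 (q.2 - c j))) ?_
    refine AEMeasurable.mul (hgm.comp_quasiMeasurePreserving
      Measure.quasiMeasurePreserving_snd) (Measurable.aemeasurable (Measurable.ennreal_ofReal ?_))
    exact (measurable_Kr a).comp (measurable_fst.prodMk (measurable_snd.sub_const _))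
  calc ∫⁻ η : Fin m → ℝ, ENNReal.ofReal ((∏ i, |η i|) ^ (p - 2)) * ‖ftm m g η‖ₑ ^ p
      ≤ ∫⁻ η : Fin m → ℝ, (ENNReal.ofReal (Λ ^ p) * (N : ℝ≥0∞) ^ (p - 1)) *
          ∑ j, ENNReal.ofReal (wr η ^ (p - 2)) *
            (∫⁻ y, ‖g y‖ₑ * ENNReal.ofReal (Kr a η (y - c j))) ^ p := by
        refine lintegral_mono_ae ?_
        filter_upwards [ae_ne (m := m)] with η hη
        have h3 := ENNReal.rpow_le_rpow (h1 η hη) hp0.le
        rw [ENNReal.mul_rpow_of_nonneg _ _ hp0.le, ENNReal.ofReal_rpow_of_nonneg hΛ hp0.le] at h3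
        have h4 := ENNReal.rpow_sum_le_const_mul_sum_rpow (Finset.univ : Finset (Fin N))
          (fun j => ∫⁻ y, ‖g y‖ₑ * ENNReal.ofReal (Kr a η (y - c j))) hp.le
        rw [Finset.card_univ, Fintype.card_fin] at h4
        calc ENNReal.ofReal ((∏ i, |η i|) ^ (p - 2)) * ‖ftm m g η‖ₑ ^ p
            ≤ ENNReal.ofReal (wr η ^ (p - 2)) * (ENNReal.ofReal (Λ ^ p) *
              ((N : ℝ≥0∞) ^ (p - 1) * ∑ j,
                (∫⁻ y, ‖g y‖ₑ * ENNReal.ofReal (Kr a η (y - c j))) ^ p)) :=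
              mul_le_mul_right (h3.trans (mul_le_mul_right h4 _)) _
          _ = _ := by
              rw [← Finset.mul_sum]
              ring
    _ = (ENNReal.ofReal (Λ ^ p) * (N : ℝ≥0∞) ^ (p - 1)) *
          ∑ j, ∫⁻ η : Fin m → ℝ, ENNReal.ofReal (wr η ^ (p - 2)) *
            (∫⁻ y, ‖g y‖ₑ * ENNReal.ofReal (Kr a η (y - c j))) ^ p := by
        rw [lintegral_const_mul'', lintegral_finsetSum']
        · exact fun j _ => hmeas j
        · exact Finset.aemeasurable_fun_sum _ fun j _ => hmeas j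
    _ ≤ (ENNReal.ofReal (Λ ^ p) * (N : ℝ≥0∞) ^ (p - 1)) *
          ∑ _j : Fin N, ENNReal.ofReal C * ∫⁻ y, ‖g y‖ₑ ^ p := by
        refine mul_le_mul_right (Finset.sum_le_sum fun j _ => ?_) _
        exact h (c j) (fun y => ‖g y‖ₑ) hgm
    _ = ENNReal.ofReal (Λ ^ p * ((N : ℝ) ^ (p - 1) * (N * C))) * ∫⁻ y, ‖g y‖ₑ ^ p := by
        rw [Finset.sum_const, Finset.card_univ, Fintype.card_fin, nsmul_eq_mul,
          ENNReal.ofReal_mul (by positivity), ENNReal.ofReal_mul (by positivity),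
          ENNReal.ofReal_mul (by positivity), ENNReal.ofReal_natCast,
          ← ENNReal.ofReal_rpow_of_nonneg (Nat.cast_nonneg N) (by linarith),
          ENNReal.ofReal_natCast]
        ring
    _ ≤ _ := mul_le_mul_left (ENNReal.ofReal_le_ofReal (by linarith)) _

/-- the class of data -/
def Cls (m N : ℕ) (a Λ : ℝ) (f : EuclideanSpace ℝ (Fin (m + 1)) → ℂ) : Prop :=
  ∃ v : OrthonormalBasis (Fin (m + 1)) ℝ (EuclideanSpace ℝ (Fin (m + 1))), ∀ᵐ x : ℝ,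
    Dom N a Λ (fun y : Fin m → ℝ => f (∑ i, y i • v i.castSucc + x • v (Fin.last m)))

/-- the slice inequality with constant `C2`, after an isometry, almost everywhere -/
def Sla (m : ℕ) (W : (Fin m → ℝ) → ℝ) (p C2 : ℝ) (f : EuclideanSpace ℝ (Fin (m + 1)) → ℂ) :
    Prop :=
  ∃ (L : EuclideanSpace ℝ (Fin (m + 1)) ≃ₗᵢ[ℝ] EuclideanSpace ℝ (Fin (m + 1)))
    (f' : EuclideanSpace ℝ (Fin (m + 1)) → ℂ), (∀ z, f z = f' (L z)) ∧
    ∀ᵐ x : ℝ, Integrable (fun y : Fin m → ℝ => f' ((Zc m).symm (x, y))) →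
      ∫⁻ η : Fin m → ℝ, ENNReal.ofReal (W η) *
        ‖ftm m (fun y => f' ((Zc m).symm (x, y))) η‖ₑ ^ p ≤
      ENNReal.ofReal C2 * ∫⁻ y : Fin m → ℝ, ‖f' ((Zc m).symm (x, y))‖ₑ ^ p

/-- the estimate for one datum (slices almost everywhere) -/
theorem one_datum_ae (m : ℕ) (W : (Fin m → ℝ) → ℝ) (s p C2 : ℝ) (hs : 0 < s) (hC2 : 0 < C2)
    (hTP : K5.TW m W s p) : ∃ C : ℝ, 0 < C ∧
    ∀ f : EuclideanSpace ℝ (Fin (m + 1)) → ℂ, Integrable f → Sla m W p C2 f →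
    ∀ τ : ℝ, 0 < τ → τ ≤ 1 →
    (∫⁻ t in Icc (1 : ℝ) 2, ∫⁻ z, ‖RM m (mc s τ t) f z‖ₑ ^ p ≤
      ENNReal.ofReal C * ∫⁻ z, ‖f z‖ₑ ^ p) ∧
    (∫⁻ t in Icc (1 : ℝ) 2, ∫⁻ z, ‖RM m (ms s τ t) f z‖ₑ ^ p ≤
      ENNReal.ofReal C * ∫⁻ z, ‖f z‖ₑ ^ p) := by
  obtain ⟨C1, hC1, h1⟩ := hTP
  refine ⟨C1 * C2, mul_pos hC1 hC2, ?_⟩
  rintro f hf ⟨L, f', hff0, hsl⟩ τ hτ hτ1
  have hff : f = fun z => f' (L z) := funext hff0
  have hf'i : Integrable f' := by
    have h3 : f' = fun z => f (L.symm z) := by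
      funext z
      rw [hff]
      simp only [LinearIsometryEquiv.apply_symm_apply]
    rw [h3]
    exact L.symm.measurePreserving.integrable_comp_of_integrable hf
  -- coordinates
  set g : ℝ × (Fin m → ℝ) → ℂ := fun q => f' ((Zc m).symm q) with hg
  have hgi : Integrable g := ((Zc_mp m).symm _).integrable_comp_of_integrable hf'i
  have hgf : (fun z => g (Zc m z)) = f' := by
    funext z
    simp only [hg, MeasurableEquiv.symm_apply_apply]
  -- measurable modification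
  obtain ⟨g0, hg0m, hg0e⟩ : ∃ g0 : ℝ × (Fin m → ℝ) → ℂ, Measurable g0 ∧ g =ᵐ[volume] g0 :=
    ⟨hgi.1.mk g, hgi.1.stronglyMeasurable_mk.measurable, hgi.1.ae_eq_mk⟩
  have hg0i : Integrable g0 := hgi.congr hg0e
  have hcong : (fun z => g (Zc m z)) =ᵐ[volume] fun z => g0 (Zc m z) :=
    (Zc_mp m).quasiMeasurePreserving.ae_eq_comp hg0e
  have hRM : ∀ M : ℝ → ℝ, ∀ z, RM m M f z = RM m M (fun z => g0 (Zc m z)) (L z) := by
    intro M z
    rw [← RM_congr m M hcong, hgf, hff, RM_rot]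
  have hslice : ∫⁻ x : ℝ, ∫⁻ η : Fin m → ℝ,
      ENNReal.ofReal (W η) * ‖GG m g0 η x‖ₑ ^ p ≤
      ENNReal.ofReal C2 * ∫⁻ x : ℝ, ∫⁻ y : Fin m → ℝ, ‖g (x, y)‖ₑ ^ p := by
    have h1 : ∀ᵐ x : ℝ, ∀ᵐ y : Fin m → ℝ, g (x, y) = g0 (x, y) := Measure.ae_ae_of_ae_prod hg0e
    have h2 : ∀ᵐ x : ℝ, Integrable (fun y : Fin m → ℝ => g (x, y)) := hgi.prod_right_ae
    rw [← lintegral_const_mul' _ _ ENNReal.ofReal_ne_top]
    refine lintegral_mono_ae ?_
    filter_upwards [h1, h2, hsl] with x hx1 hx2 hx3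
    have h3 : ∀ η, GG m g0 η x = ftm m (fun y => g (x, y)) η := by
      intro η
      unfold GG ftm
      refine integral_congr_ae ?_
      filter_upwards [hx1] with y hy
      rw [hy]
    simp only [h3]
    exact hx3 hx2
  have hR : ENNReal.ofReal C1 * ∫⁻ x : ℝ, ∫⁻ η : Fin m → ℝ,
      ENNReal.ofReal (W η) * ‖GG m g0 η x‖ₑ ^ p ≤
      ENNReal.ofReal (C1 * C2) * ∫⁻ z, ‖f z‖ₑ ^ p := by
    rw [ENNReal.ofReal_mul hC1.le, mul_assoc]
    refine mul_le_mul_right ?_ _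
    refine hslice.trans (mul_le_mul_right ?_ _)
    apply le_of_eq
    have h7 : AEMeasurable (fun q : ℝ × (Fin m → ℝ) => ‖g q‖ₑ ^ p) :=
      hgi.1.aemeasurable.enorm.pow_const p
    have h8 : ∫⁻ z, ‖f z‖ₑ ^ p = ∫⁻ z, ‖f' z‖ₑ ^ p := by
      rw [hff]
      exact lint_rot m (fun z => ‖f' z‖ₑ ^ p) L
    rw [h8, ← hgf]
    rw [(Zc_mp m).lintegral_comp_emb (Zc m).measurableEmbedding (fun q => ‖g q‖ₑ ^ p),
      Measure.volume_eq_prod, lintegral_prod _ h7]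
  have hLi : ∀ (M : ℝ → ℝ), ∫⁻ z, ‖RM m M f z‖ₑ ^ p =
      ∫⁻ z, ‖RM m M (fun z => g0 (Zc m z)) z‖ₑ ^ p := by
    intro M
    simp only [hRM M]
    exact lint_rot m (fun z => ‖RM m M (fun z => g0 (Zc m z)) z‖ₑ ^ p) L
  have hTPg := h1 τ (GG m g0) hτ hτ1 (GG_adm m hg0i hg0m)
  constructor
  · refine (le_of_eq ?_).trans (hTPg.1.trans hR)
    refine setLIntegral_congr_fun measurableSet_Icc fun t ht => ?_
    rw [hLi, RM_lint m (mc s τ t) (measurable_mc s τ t) hτ (fun r _ => mc_le s τ t r hs) hg0i]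
  · refine (le_of_eq ?_).trans (hTPg.2.trans hR)
    refine setLIntegral_congr_fun measurableSet_Icc fun t ht => ?_
    have ht2 : |t| ≤ 2 := by rw [abs_of_nonneg (by linarith [ht.1])]; exact ht.2
    rw [hLi, RM_lint m (ms s τ t) (measurable_ms s τ t) hτ
      (fun r hr => ms_le s τ t r hs ht2 hr) hg0i]

/-- the estimate for one datum of the class -/
theorem cls_one (hTP : S_TP) {m : ℕ} (hm : 0 < m) (N : ℕ) {p s a Λ : ℝ} (hs : 0 < s)
    (hp : 2 ≤ p) (hp4 : p ≤ 4) (ha : 1 - 1 / p < a) (ha1 : a ≤ 1) (hΛ : 0 ≤ Λ) :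
    OneD m s p (Cls m N a Λ) := by
  obtain ⟨C2, hC2, hcl⟩ := dom_slice m N (by linarith : 1 < p) ha ha1 hΛ
  obtain ⟨C1, hC1, h1⟩ := hTP m s p hm hs hp hp4
  obtain ⟨C, hC, h⟩ := one_datum_ae m (fun η => (∏ i, |η i|) ^ (p - 2)) s p C2 hs hC2
    ⟨C1, hC1, h1⟩
  refine ⟨C, hC, fun f hf hc => h f hf ?_⟩
  obtain ⟨v, hv⟩ := hc
  refine ⟨v.repr, fun w => f (v.repr.symm w), fun z => by simp, ?_⟩
  filter_upwards [hv] with x hx hi
  have heq : ∀ y : Fin m → ℝ, f (v.repr.symm ((Zc m).symm (x, y))) =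
      f (∑ i, y i • v i.castSucc + x • v (Fin.last m)) := by
    intro y
    rw [← v.sum_repr_symm, Fin.sum_univ_castSucc]
    have h4 : Zc m ((Zc m).symm (x, y)) = (x, y) := MeasurableEquiv.apply_symm_apply _ _
    rw [Zc_apply] at h4
    have h5 : ((Zc m).symm (x, y)) (Fin.last m) = x := congrArg Prod.fst h4
    have h6 : ∀ i : Fin m, ((Zc m).symm (x, y)) i.castSucc = y i :=
      fun i => congrFun (congrArg Prod.snd h4) i
    rw [h5]
    simp only [h6]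
  simp only [heq] at hi ⊢
  exact hcl _ hi hx

end Pool.Agent.R462.HS
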