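import Pool.Agent.R462.HS.Slice
set_option autoImplicit false

/-! # Slices with unimodal spectrum -/

open MeasureTheory Set Filter
open scoped ENNReal Topology

namespace Pool.Agent.R462.HS

open Pool.Agent.TH280.LS

/-- the Fourier transform of a Gaussian -/
lemma ft_gauss {η : ℝ} (hη : η ≠ 0) (v : ℝ) :
    ∫ ξ : ℝ, e (-(v * ξ)) * ((Real.exp (-(Real.pi * (ξ / η) ^ 2)) : ℝ) : ℂ) =
      ((|η| * Real.exp (-(Real.pi * (η * v) ^ 2)) : ℝ) : ℂ) := by
  have hη2 : 0 < η ^ 2 := by positivity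
  have hb : 0 < (((Real.pi / η ^ 2 : ℝ) : ℂ)).re := by
    rw [Complex.ofReal_re]; positivity
  have h := fourierIntegral_gaussian hb ((-(2 * Real.pi * v) : ℝ) : ℂ)
  have h1 : ∫ ξ : ℝ, e (-(v * ξ)) * ((Real.exp (-(Real.pi * (ξ / η) ^ 2)) : ℝ) : ℂ) =
      ∫ x : ℝ, Complex.exp (Complex.I * ((-(2 * Real.pi * v) : ℝ) : ℂ) * x) *
        Complex.exp (-((Real.pi / η ^ 2 : ℝ) : ℂ) * x ^ 2) := by
    refine integral_congr_ae (Eventually.of_forall fun x => ?_)
    simp only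
    unfold e
    rw [Complex.ofReal_exp]
    congr 2
    · push_cast; ring
    · push_cast
      field_simp
  rw [h1, h]
  have h2 : ((Real.pi : ℂ) / ((Real.pi / η ^ 2 : ℝ) : ℂ)) = ((η ^ 2 : ℝ) : ℂ) := by
    have : (Real.pi : ℂ) ≠ 0 := Complex.ofReal_ne_zero.2 Real.pi_ne_zero
    have hc : (η : ℂ) ≠ 0 := Complex.ofReal_ne_zero.2 hη
    push_cast
    field_simp
  have h3 : ((η ^ 2 : ℝ) : ℂ) ^ (1 / 2 : ℂ) = ((|η| : ℝ) : ℂ) := by
    have : (1 / 2 : ℂ) = (((1 / 2 : ℝ)) : ℂ) := by push_cast; ring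
    rw [this, ← Complex.ofReal_cpow hη2.le, ← Real.sqrt_eq_rpow, Real.sqrt_sq_eq_abs]
  rw [h2, h3, Complex.ofReal_mul, Complex.ofReal_exp]
  congr 2
  push_cast
  have : (Real.pi : ℂ) ≠ 0 := Complex.ofReal_ne_zero.2 Real.pi_ne_zero
  have hc : (η : ℂ) ≠ 0 := Complex.ofReal_ne_zero.2 hη
  field_simp
  ring

/-- product Gaussian -/
noncomputable def ga {m : ℕ} (η ξ : Fin m → ℝ) : ℝ :=
  ∏ i, Real.exp (-(Real.pi * (ξ i / η i) ^ 2))

lemma ga_pos {m : ℕ} (η ξ : Fin m → ℝ) : 0 < ga η ξ := Finset.prod_pos fun i _ => Real.exp_pos _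

lemma ga_int {m : ℕ} {η : Fin m → ℝ} (hη : ∀ i, η i ≠ 0) : Integrable (fun ξ => ga η ξ) := by
  unfold ga
  refine Integrable.fintype_prod (f := fun i => fun x : ℝ =>
    Real.exp (-(Real.pi * (x / η i) ^ 2))) fun i => ?_
  have h1 : Integrable (fun ξ : ℝ => Real.exp (-(Real.pi / η i ^ 2) * ξ ^ 2)) :=
    integrable_exp_neg_mul_sq (div_pos Real.pi_pos (pow_pos (abs_pos.2 (hη i)) 2 |>.trans_eq
      (sq_abs _)))
  refine h1.congr (Eventually.of_forall fun x => ?_)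
  simp only
  congr 1
  have := hη i
  field_simp

lemma e_sum {m : ℕ} (z : Fin m → ℝ) : e (-(∑ i, z i)) = ∏ i, e (-(z i)) := by
  unfold e
  rw [← Complex.exp_sum, ← Finset.sum_mul, ← Complex.ofReal_sum, ← Finset.mul_sum,
    Finset.sum_neg_distrib]

lemma ft_ga {m : ℕ} {η : Fin m → ℝ} (hη : ∀ i, η i ≠ 0) (v : Fin m → ℝ) :
    ∫ ξ : Fin m → ℝ, e (-(∑ i, v i * ξ i)) * ((ga η ξ : ℝ) : ℂ) =
      ((∏ i, (|η i| * Real.exp (-(Real.pi * (η i * v i) ^ 2))) : ℝ) : ℂ) := by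
  rw [Complex.ofReal_prod]
  simp_rw [← ft_gauss (hη _)]
  rw [← integral_fintype_prod_volume_eq_prod (fun (i : Fin m) (x : ℝ) =>
    e (-(v i * x)) * ((Real.exp (-(Real.pi * (x / η i) ^ 2)) : ℝ) : ℂ))]
  refine integral_congr_ae (Eventually.of_forall fun ξ => ?_)
  simp only
  rw [Finset.prod_mul_distrib, e_sum]
  unfold ga
  rw [Complex.ofReal_prod]

/-- multiplication formula with a Gaussian -/
lemma gauss_mul {m : ℕ} {η : Fin m → ℝ} (hη : ∀ i, η i ≠ 0) {g : (Fin m → ℝ) → ℂ}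
    (hg : Integrable g) (c : Fin m → ℝ) :
    ∫ ξ : Fin m → ℝ, ftm m g ξ * (e (∑ i, c i * ξ i) * ((ga η ξ : ℝ) : ℂ)) =
      ∫ y : Fin m → ℝ, g y *
        ((∏ i, (|η i| * Real.exp (-(Real.pi * (η i * (y i - c i)) ^ 2))) : ℝ) : ℂ) := by
  unfold ftm
  have h1 : ∀ ξ : Fin m → ℝ, (∫ y : Fin m → ℝ, e (-(∑ i, y i * ξ i)) * g y) *
      (e (∑ i, c i * ξ i) * ((ga η ξ : ℝ) : ℂ)) =
      ∫ y : Fin m → ℝ, g y * (e (-(∑ i, (y i - c i) * ξ i)) * ((ga η ξ : ℝ) : ℂ)) := by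
    intro ξ
    rw [← integral_mul_const]
    refine integral_congr_ae (Eventually.of_forall fun y => ?_)
    simp only
    have : e (-(∑ i, (y i - c i) * ξ i)) = e (-(∑ i, y i * ξ i)) * e (∑ i, c i * ξ i) := by
      rw [← e_add]
      congr 1
      rw [← Finset.sum_neg_distrib, ← Finset.sum_neg_distrib, ← Finset.sum_add_distrib]
      exact Finset.sum_congr rfl fun i _ => by ring
    rw [this]
    ring
  simp_rw [h1]
  rw [integral_integral_swap]
  · refine integral_congr_ae (Eventually.of_forall fun y => ?_)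
    simp only
    rw [integral_const_mul, ft_ga hη (fun i => y i - c i)]
  · have h2 : Integrable (fun q : (Fin m → ℝ) × (Fin m → ℝ) => ga η q.1 * ‖g q.2‖)
        (volume.prod volume) := (ga_int hη).mul_prod hg.norm
    refine h2.mono' ?_ ?_
    · refine AEStronglyMeasurable.mul ?_ ?_
      · exact hg.1.comp_quasiMeasurePreserving Measure.quasiMeasurePreserving_snd
      · refine Measurable.aestronglyMeasurable (Measurable.mul ?_ ?_)
        · exact measurable_e.comp (Measurable.neg (by fun_prop))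
        · exact Complex.measurable_ofReal.comp (by unfold ga; fun_prop)
    · refine Eventually.of_forall fun q => ?_
      simp only [Function.uncurry]
      rw [norm_mul, norm_mul, norm_e, one_mul, Complex.norm_real, Real.norm_eq_abs,
        abs_of_pos (ga_pos _ _), mul_comm]

lemma exp_le_kk {a : ℝ} (ha1 : a ≤ 1) (t : ℝ) :
    Real.exp (-(Real.pi * t ^ 2)) ≤ 2 * kk a t := by
  have hpi : (1 : ℝ) ≤ Real.pi := by have := Real.pi_gt_three; linarith
  have h1 : 1 + |t| ≤ 2 * Real.exp (Real.pi * t ^ 2) := by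
    have h2 := Real.add_one_le_exp (Real.pi * t ^ 2)
    have h3 : |t| ≤ 1 / 2 + t ^ 2 := by
      nlinarith [sq_abs t, sq_nonneg (|t| - 1 / 2)]
    nlinarith [sq_nonneg t]
  have h4 : (1 + |t|) ^ (-(1 : ℝ)) ≤ kk a t := by
    unfold kk
    exact Real.rpow_le_rpow_of_exponent_le (by have := abs_nonneg t; linarith) (by linarith)
  have h5 : 0 < 1 + |t| := by positivity
  rw [Real.exp_neg]
  have h6 : (Real.exp (Real.pi * t ^ 2))⁻¹ ≤ 2 * (1 + |t|)⁻¹ := by
    rw [inv_le_comm₀ (Real.exp_pos _) (by positivity), mul_inv, inv_inv]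
    linarith
  rw [Real.rpow_neg_one] at h4
  linarith

/-- **Slices with unimodal spectrum are dominated.** -/
theorem spec_dom' {m : ℕ} {a Λ : ℝ} (ha : 0 ≤ a) (ha1 : a ≤ 1) (hΛ : 0 ≤ Λ)
    {g : (Fin m → ℝ) → ℂ} (hg : Integrable g) (b : ℂ) (c : Fin m → ℝ) (Φ : (Fin m → ℝ) → ℝ)
    (hΦ : ∀ η, 0 ≤ Φ η)
    (hav : ∀ η : Fin m → ℝ, (∀ i, η i ≠ 0) →
      Φ η * ∏ i, |η i| ≤ Λ * ∫ ξ in {ξ : Fin m → ℝ | ∀ i, |ξ i| ≤ |η i|}, Φ ξ)
    (hgΦ : ∀ η, ftm m g η = b * e (-(∑ i, c i * η i)) * ((Φ η : ℝ) : ℂ)) :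
    ∀ η : Fin m → ℝ, (∀ i, η i ≠ 0) → ‖ftm m g η‖ ≤ 100 ^ m * Λ *
      ∑ _j : Fin 1, ∫ y, ‖g y‖ * ∏ i, (1 + |η i * (y i - c i)|) ^ (-a) := by
  intro η hη
  rw [Finset.sum_const, Finset.card_univ, Fintype.card_fin, one_smul]
  have hR0 : 0 ≤ ∫ y, ‖g y‖ * ∏ i, (1 + |η i * (y i - c i)|) ^ (-a) := by
    refine integral_nonneg fun y => mul_nonneg (norm_nonneg _) (Finset.prod_nonneg fun i _ => ?_)
    positivity
  by_cases hb : b = 0
  · rw [hgΦ, hb, zero_mul, zero_mul, norm_zero]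
    positivity
  have hb0 : 0 < ‖b‖ := norm_pos_iff.2 hb
  have hcont : Continuous (fun ξ => ftm m g ξ) := by
    unfold ftm
    refine continuous_of_dominated (F := fun (ξ : Fin m → ℝ) (y : Fin m → ℝ) =>
      e (-(∑ i, y i * ξ i)) * g y) (bound := fun y => ‖g y‖) ?_ ?_ hg.norm ?_
    · intro ξ
      refine AEStronglyMeasurable.mul ?_ hg.1
      exact (measurable_e.comp (Measurable.neg (by fun_prop))).aestronglyMeasurable
    · intro ξ
      refine Eventually.of_forall fun y => ?_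
      rw [norm_mul, norm_e, one_mul]
    · refine Eventually.of_forall fun y => ?_
      exact (continuous_e.comp (by fun_prop)).mul continuous_const
  have hΦe : ∀ ξ, Φ ξ = ‖b‖⁻¹ * ‖ftm m g ξ‖ := by
    intro ξ
    rw [hgΦ, norm_mul, norm_mul, norm_e, mul_one, Complex.norm_real, Real.norm_eq_abs,
      abs_of_nonneg (hΦ ξ)]
    field_simp
  have hΦc : Continuous Φ := by
    have : Φ = fun ξ => ‖b‖⁻¹ * ‖ftm m g ξ‖ := funext hΦe
    rw [this]
    exact continuous_const.mul hcont.norm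
  have hΦb : ∀ ξ, Φ ξ ≤ ‖b‖⁻¹ * ∫ y, ‖g y‖ := by
    intro ξ
    rw [hΦe]
    refine mul_le_mul_of_nonneg_left ?_ (by positivity)
    unfold ftm
    refine (norm_integral_le_integral_norm _).trans (le_of_eq ?_)
    refine integral_congr_ae (Eventually.of_forall fun x => ?_)
    simp only [norm_mul, norm_e, one_mul]
  have hint : Integrable (fun ξ => Φ ξ * ga η ξ) := by
    refine (ga_int hη).bdd_mul (c := ‖b‖⁻¹ * ∫ y, ‖g y‖) hΦc.aestronglyMeasurable ?_
    refine Eventually.of_forall fun ξ => ?_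
    rw [Real.norm_eq_abs, abs_of_nonneg (hΦ ξ)]
    exact hΦb ξ
  -- lower bound of the Gaussian on the box
  set P : ℝ := ∏ i, |η i| with hP
  have hP0 : 0 < P := Finset.prod_pos fun i _ => abs_pos.2 (hη i)
  have hbox : ∫ ξ in {ξ : Fin m → ℝ | ∀ i, |ξ i| ≤ |η i|}, Φ ξ ≤
      Real.exp Real.pi ^ m * ∫ ξ, Φ ξ * ga η ξ := by
    rw [← integral_const_mul]
    have hms : MeasurableSet {ξ : Fin m → ℝ | ∀ i, |ξ i| ≤ |η i|} := by
      have : {ξ : Fin m → ℝ | ∀ i, |ξ i| ≤ |η i|} = ⋂ i, {ξ : Fin m → ℝ | |ξ i| ≤ |η i|} := by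
        ext ξ; simp
      rw [this]
      exact MeasurableSet.iInter fun i => measurableSet_le (by fun_prop) measurable_const
    calc ∫ ξ in {ξ : Fin m → ℝ | ∀ i, |ξ i| ≤ |η i|}, Φ ξ
        ≤ ∫ ξ in {ξ : Fin m → ℝ | ∀ i, |ξ i| ≤ |η i|},
            Real.exp Real.pi ^ m * (Φ ξ * ga η ξ) := by
          refine integral_mono_of_nonneg (Eventually.of_forall fun ξ => hΦ ξ)
            (hint.const_mul _).integrableOn ?_
          refine (ae_restrict_iff' hms).2 (Eventually.of_forall fun ξ hξ => ?_)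
          have h1 : 1 ≤ Real.exp Real.pi ^ m * ga η ξ := by
            unfold ga
            have e0 : Real.exp Real.pi ^ m = ∏ _i : Fin m, Real.exp Real.pi := by simp
            rw [e0, ← Finset.prod_mul_distrib]
            have e1 : (1 : ℝ) = ∏ _i : Fin m, (1 : ℝ) := by simp
            rw [e1]
            refine Finset.prod_le_prod (fun _ _ => zero_le_one) fun i _ => ?_
            rw [← Real.exp_add]
            refine Real.one_le_exp ?_
            have h2 : (ξ i / η i) ^ 2 ≤ 1 := by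
              rw [div_pow, div_le_one (by have := hη i; positivity)]
              exact sq_le_sq.2 (hξ i)
            nlinarith [Real.pi_pos]
          calc Φ ξ = Φ ξ * 1 := (mul_one _).symm
            _ ≤ Φ ξ * (Real.exp Real.pi ^ m * ga η ξ) := mul_le_mul_of_nonneg_left h1 (hΦ ξ)
            _ = _ := by ring
      _ ≤ _ := by
          refine setIntegral_le_integral (hint.const_mul _) (Eventually.of_forall fun ξ => ?_)
          exact mul_nonneg (by positivity) (mul_nonneg (hΦ ξ) (ga_pos _ _).le)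
  -- the integral against the Gaussian
  have hG : ‖b‖ * ∫ ξ, Φ ξ * ga η ξ ≤ P * (2 ^ m * ∫ y, ‖g y‖ * Kr a η (y - c)) := by
    have h1 := gauss_mul hη hg c
    have h2 : ∫ ξ : Fin m → ℝ, ftm m g ξ * (e (∑ i, c i * ξ i) * ((ga η ξ : ℝ) : ℂ)) =
        b * ((∫ ξ, Φ ξ * ga η ξ : ℝ) : ℂ) := by
      rw [← integral_complex_ofReal, ← integral_const_mul]
      refine integral_congr_ae (Eventually.of_forall fun ξ => ?_)
      simp only
      rw [hgΦ]
      have h3 : e (-(∑ i, c i * ξ i)) * e (∑ i, c i * ξ i) = 1 := by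
        rw [← e_add, neg_add_cancel, e_zero]
      push_cast
      calc b * e (-(∑ i, c i * ξ i)) * (Φ ξ : ℂ) * (e (∑ i, c i * ξ i) * (ga η ξ : ℂ))
          = b * ((e (-(∑ i, c i * ξ i)) * e (∑ i, c i * ξ i)) * ((Φ ξ : ℂ) * (ga η ξ : ℂ))) := by
            ring
        _ = _ := by rw [h3, one_mul]
    have h4 : ‖b‖ * ∫ ξ, Φ ξ * ga η ξ = ‖∫ y : Fin m → ℝ, g y *
        ((∏ i, (|η i| * Real.exp (-(Real.pi * (η i * (y i - c i)) ^ 2))) : ℝ) : ℂ)‖ := by
      rw [← h1, h2, norm_mul, Complex.norm_real, Real.norm_eq_abs, abs_of_nonneg]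
      exact integral_nonneg fun ξ => mul_nonneg (hΦ ξ) (ga_pos _ _).le
    rw [h4, ← integral_const_mul, ← integral_const_mul]
    refine (norm_integral_le_integral_norm _).trans (integral_mono_of_nonneg
      (Eventually.of_forall fun y => norm_nonneg _)
      (((int_gK ha η c hg).const_mul _).const_mul _) (Eventually.of_forall fun y => ?_))
    simp only
    have h5 : ∏ i, (|η i| * Real.exp (-(Real.pi * (η i * (y i - c i)) ^ 2))) ≤
        P * (2 ^ m * Kr a η (y - c)) := by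
      rw [Finset.prod_mul_distrib]
      refine mul_le_mul_of_nonneg_left ?_ hP0.le
      unfold Kr
      have e0 : (2 : ℝ) ^ m = ∏ _i : Fin m, (2 : ℝ) := by simp
      rw [e0, ← Finset.prod_mul_distrib]
      exact Finset.prod_le_prod (fun i _ => (Real.exp_pos _).le) fun i _ => exp_le_kk ha1 _
    have h6 : 0 ≤ ∏ i, (|η i| * Real.exp (-(Real.pi * (η i * (y i - c i)) ^ 2))) :=
      Finset.prod_nonneg fun i _ => by positivity
    rw [norm_mul, Complex.norm_real, Real.norm_eq_abs, abs_of_nonneg h6]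
    calc ‖g y‖ * ∏ i, (|η i| * Real.exp (-(Real.pi * (η i * (y i - c i)) ^ 2)))
        ≤ ‖g y‖ * (P * (2 ^ m * Kr a η (y - c))) :=
          mul_le_mul_of_nonneg_left h5 (norm_nonneg _)
      _ = _ := by ring
  have h7 : ‖ftm m g η‖ = ‖b‖ * Φ η := by
    rw [hΦe]; field_simp
  have h8 := hav η hη
  have h9 : (Real.exp Real.pi * 2) ^ m ≤ 100 ^ m := by
    refine pow_le_pow_left₀ (by positivity) ?_ m
    have h10 : Real.exp Real.pi ≤ 50 := by
      have h11 : Real.pi ≤ 3.15 := Real.pi_lt_d2.le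
      have h12 : Real.exp 1 ≤ 2.7182818286 := Real.exp_one_lt_d9.le
      calc Real.exp Real.pi ≤ Real.exp (3.5 : ℝ) := Real.exp_le_exp.2 (by linarith)
        _ = (Real.exp 1 ^ 7) ^ (1 / 2 : ℝ) := by
            rw [← Real.exp_nat_mul, ← Real.exp_mul]; norm_num
        _ ≤ ((2.7182818286 : ℝ) ^ 7) ^ (1 / 2 : ℝ) := by
            refine Real.rpow_le_rpow (by positivity) ?_ (by norm_num)
            exact pow_le_pow_left₀ (Real.exp_pos _).le h12 7
        _ ≤ ((50 : ℝ) ^ 2) ^ (1 / 2 : ℝ) := Real.rpow_le_rpow (by positivity) (by norm_num)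
            (by norm_num)
        _ = 50 := by rw [← Real.sqrt_eq_rpow, Real.sqrt_sq (by norm_num)]
    linarith
  simp only [kr_eq]
  have hK0 : 0 ≤ ∫ y, ‖g y‖ * Kr a η (y - c) :=
    integral_nonneg fun y => mul_nonneg (norm_nonneg _) (Kr_pos _ _ _).le
  have h13 : (‖b‖ * Φ η) * P ≤ (100 ^ m * Λ * ∫ y, ‖g y‖ * Kr a η (y - c)) * P := by
    calc (‖b‖ * Φ η) * P = ‖b‖ * (Φ η * P) := by ring
      _ ≤ ‖b‖ * (Λ * (Real.exp Real.pi ^ m * ∫ ξ, Φ ξ * ga η ξ)) :=
          mul_le_mul_of_nonneg_left (h8.trans (mul_le_mul_of_nonneg_left hbox hΛ)) hb0.le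
      _ = Λ * Real.exp Real.pi ^ m * (‖b‖ * ∫ ξ, Φ ξ * ga η ξ) := by ring
      _ ≤ Λ * Real.exp Real.pi ^ m * (P * (2 ^ m * ∫ y, ‖g y‖ * Kr a η (y - c))) :=
          mul_le_mul_of_nonneg_left hG (by positivity)
      _ = ((Real.exp Real.pi * 2) ^ m) * (Λ * (∫ y, ‖g y‖ * Kr a η (y - c)) * P) := by
          rw [mul_pow]; ring
      _ ≤ 100 ^ m * (Λ * (∫ y, ‖g y‖ * Kr a η (y - c)) * P) :=
          mul_le_mul_of_nonneg_right h9 (by positivity)
      _ = _ := by ring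
  rw [h7]
  exact le_of_mul_le_mul_right h13 hP0

end Pool.Agent.R462.HS
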